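import Pool.Agent.Lib.MP_26bfe6_an.Defs
import Pool.Agent.Lib.MP_26bfe6_an.Core

/-!
# MP_26bfe6_an: the uniform closures of `𝓑_3` and `𝓒_3` differ

There is a correlation sequence `c` of three commuting transformations, bounded by `1`, whose
distance in the supremum norm to every correlation sequence of the class `𝓑_3` is at least `1`.
-/

set_option autoImplicit false

open Pool.Agent.MP_26bfe6_an

/-- Disproof of Q1, with `ℓ = 3`. -/
theorem Pool.Agent.Results.MP_26bfe6_an.ClosuresDiffer.result.{u} :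
    (∃ c ∈ CSeq.{0} 3, (∀ n, ‖c n‖ ≤ 1) ∧
      ∀ b ∈ BSeq.{u} 3, ∀ ε : ℝ, ε < 1 → ∃ n, 1 ≤ n ∧ ε < ‖c n - b n‖) ∧
    supClosure (BSeq.{0} 3) ≠ supClosure (CSeq.{0} 3) := by
  refine ⟨Pool.Agent.Lib.MP_26bfe6_an.core.{u}, fun heq => ?_⟩
  obtain ⟨c, hc, -, hsep⟩ := Pool.Agent.Lib.MP_26bfe6_an.core.{0}
  have h1 : c ∈ supClosure (CSeq.{0} 3) := fun ε hε => ⟨c, hc, fun n _ => by simpa using hε.le⟩
  rw [← heq] at h1
  obtain ⟨b, hb, hcb⟩ := h1 (1 / 2) (by norm_num)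
  obtain ⟨n, hn, h2⟩ := hsep b hb (1 / 2) (by norm_num)
  exact absurd (hcb n hn) (not_le.2 h2)
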